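import Pool.Agent.Helper53.PF.St

/-!
# Project PF, module DIB: the second descent step
-/

set_option autoImplicit false
set_option linter.style.longLine false

namespace PF.Helper37

open Polynomial

private theorem dib_evX {k : Type} [Field k] (v y : k[X]) : ev v y X = y := by
  unfold ev
  rw [coe_eval₂RingHom, eval₂_X]

private theorem dib_evC {k : Type} [Field k] (v y a : k[X]) : ev v y (C a) = a.comp v := by
  unfold ev
  rw [coe_eval₂RingHom, eval₂_C, coe_compRingHom_apply]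

private theorem dib_evCC {k : Type} [Field k] (v y : k[X]) (a : k) : ev v y (C (C a)) = C a := by
  rw [dib_evC, C_comp]

private theorem dib_evc {k : Type} [Field k] (κ n : k) (v y : k[X]) :
    ev v y (cV κ n) = C (2 * κ) * (v - C (2 * n)) := by
  unfold cV
  rw [dib_evC, mul_comp, sub_comp, X_comp, C_comp, C_comp]

private theorem dib_deg {k : Type} [Field k] {n : k} {s z w : k[X]} (h : Crv n s z w) (μ : k) :
    s ^ 2 * w + C μ * (s ^ 3 - C (2 * n)) ≠ 0 := by
  have hs : s ≠ 0 := by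
    rintro rfl
    have := h.ds
    simp at this
  have hw : w ≠ 0 := by
    rintro rfl
    have := h.dw
    simp at this
  have h1 : (s ^ 2 * w).natDegree = 12 := by
    rw [natDegree_mul (pow_ne_zero 2 hs) hw, natDegree_pow, h.ds, h.dw]
  have h2 : (C μ * (s ^ 3 - C (2 * n))).natDegree ≤ 9 := by
    refine (natDegree_C_mul_le _ _).trans ?_
    refine (natDegree_sub_le _ _).trans ?_
    rw [natDegree_pow, h.ds, natDegree_C]
    norm_num
  intro h0
  have h3 : s ^ 2 * w = - (C μ * (s ^ 3 - C (2 * n))) := eq_neg_of_add_eq_zero_left h0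
  have h4 := congrArg natDegree h3
  rw [natDegree_neg, h1] at h4
  omega

theorem holds_DIB : PF.StDIB := by
  intro k _ _ κ n hκ hπ s z w hC i
  have h43 : ((4 / 3 : k)) * (3 / 4) = 1 := by norm_num
  have e34 : (C (C (4 / 3 : k)) : k[X][X]) * C (C (3 / 4 : k)) = 1 := by
    rw [← C_mul, ← C_mul, h43, C_1, C_1]
  have e34' : (C (4 / 3 : k) : k[X]) * C (3 / 4 : k) = 1 := by
    rw [← C_mul, h43, C_1]
  -- the curve equation
  have hcurve : (s ^ 2 * w + C κ * (s ^ 3 - C (2 * n))) ^ 2 =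
      C (2 * κ) * (s ^ 3 - C (2 * n)) * (s ^ 2 * w + C κ * (s ^ 3 - C (2 * n))) -
        C (4 / 3) * ((s * z) ^ 3 - C (n ^ 2)) := by
    have h1 := hC.eq
    have t3 : (C (3 : k) : k[X]) = 3 := map_ofNat C 3
    have t4 : (C (4 : k) : k[X]) = 4 := map_ofNat C 4
    have t2 : (C (2 : k) : k[X]) = 2 := map_ofNat C 2
    have hk : (3 : k[X]) * C κ ^ 2 + 1 = 0 := by
      have := congrArg (C : k → k[X]) hκ
      rwa [C_add, C_mul, C_pow, C_1, C_0, t3] at this
    have h43' : (3 : k[X]) * C (4 / 3 : k) = 4 := by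
      have h5 : (3 : k) * (4 / 3) = 4 := by norm_num
      have := congrArg (C : k → k[X]) h5
      rwa [C_mul, t3, t4] at this
    have h3 : (3 : k[X]) ≠ 0 := by
      rw [← t3]
      exact C_ne_zero.2 (by norm_num)
    apply mul_left_cancel₀ h3
    have e1 : (C (2 * κ) : k[X]) = 2 * C κ := by rw [C_mul, t2]
    have e2 : (C (2 * n) : k[X]) = 2 * C n := by rw [C_mul, t2]
    have e3 : (C (4 * n) : k[X]) = 4 * C n := by rw [C_mul, t4]
    have e4 : (C (n ^ 2) : k[X]) = C n ^ 2 := C_pow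
    rw [e3] at h1
    rw [e1, e2, e4]
    linear_combination (s ^ 3) * h1 - (s ^ 3 - 2 * C n) ^ 2 * hk + ((s * z) ^ 3 - C n ^ 2) * h43'
  have ha : s ^ 2 * w + C κ * (s ^ 3 - C (2 * n)) ≠ 0 := dib_deg hC κ
  have hca : C (2 * κ) * (s ^ 3 - C (2 * n)) - (s ^ 2 * w + C κ * (s ^ 3 - C (2 * n))) ≠ 0 := by
    have h1 := dib_deg hC (-κ)
    intro h0
    apply h1
    have e1 : (C (2 * κ) : k[X]) = 2 * C κ := by
      rw [C_mul]
      congr 1
    rw [e1] at h0
    rw [C_neg]
    linear_combination - h0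
  obtain ⟨a, haDef⟩ : ∃ a, a = s ^ 2 * w + C κ * (s ^ 3 - C (2 * n)) := ⟨_, rfl⟩
  rw [← haDef] at hcurve ha hca
  have hevc : ev (s ^ 3) (s * z) (cV κ n) = C (2 * κ) * (s ^ 3 - C (2 * n)) := dib_evc κ n _ _
  have hevπ : ev (s ^ 3) (s * z) (X ^ 3 - C (C (n ^ 2))) = (s * z) ^ 3 - C (n ^ 2) := by
    rw [map_sub, map_pow, dib_evX, dib_evCC]
  have hev34 : ev (s ^ 3) (s * z) (C (C (3 / 4 : k))) = C (3 / 4 : k) := dib_evCC _ _ _
  rw [← haDef]
  clear haDef
  obtain ⟨cc, hccd⟩ : ∃ cc : k[X], cc = C (2 * κ) * (s ^ 3 - C (2 * n)) := ⟨_, rfl⟩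
  obtain ⟨xx, hxx⟩ : ∃ xx : k[X], xx = (s * z) ^ 3 - C (n ^ 2) := ⟨_, rfl⟩
  rw [← hccd] at hcurve hca hevc
  rw [← hxx] at hcurve hevπ
  induction i with
  | zero =>
    intro p q C₁ c hc hN hv
    exact ⟨p, q, c, hc, by rw [hN, pow_zero, mul_one], hv⟩
  | succ i ih =>
    intro p q C₁ c hc hN hv
    have hg : g2 n = - (C (C (4 / 3 : k)) * (X ^ 3 - C (C (n ^ 2)))) := by
      unfold g2
      ring
    obtain ⟨π, hπd⟩ : ∃ π : k[X][X], π = X ^ 3 - C (C (n ^ 2)) := ⟨_, rfl⟩
    rw [← hπd] at hg hN hπ hevπ ih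
    have hN2 : ∀ p q : k[X][X], N2 κ n p q = p * (p + cV κ n * q) + C (C (4 / 3 : k)) * π * q ^ 2 := by
      intro p q
      unfold N2
      rw [hg]
      ring
    have hdiv : π ∣ p * (p + cV κ n * q) := by
      have h1 : p * (p + cV κ n * q) =
          π * (C c * π ^ i * C₁ - C (C (4 / 3 : k)) * q ^ 2) := by
        have h2 := hN
        rw [hN2] at h2
        linear_combination h2
      exact ⟨_, h1⟩
    have hc' : C (3 / 4 : k) * c ≠ 0 :=
      mul_ne_zero (C_ne_zero.2 (by norm_num)) hc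
    have fin : ∀ p' q' : k[X][X], N2 κ n p q = C (C (4 / 3 : k)) * π * N2 κ n p' q' →
        ev (s ^ 3) (s * z) p' + ev (s ^ 3) (s * z) q' * a = 0 →
        ∃ (p' q' : k[X][X]) (c' : k[X]), c' ≠ 0 ∧ N2 κ n p' q' = C c' * C₁ ∧
          ev (s ^ 3) (s * z) p' + ev (s ^ 3) (s * z) q' * a = 0 := by
      intro p' q' h1 h2
      apply ih p' q' C₁ (C (3 / 4 : k) * c) hc' _ h2
      apply mul_left_cancel₀ hπ.ne_zero
      rw [h1] at hN
      rw [C_mul]
      linear_combination C (C (3 / 4 : k)) * hN - π * N2 κ n p' q' * e34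
    rcases hπ.dvd_or_dvd hdiv with ⟨h, hh⟩ | ⟨h, hh⟩
    · refine fin (q + C (C (3 / 4)) * h * cV κ n) (- (C (C (3 / 4)) * h)) ?_ ?_
      · rw [hN2, hN2, hh]
        linear_combination (-(π ^ 2 * h ^ 2 * (1 + C (C (4 / 3 : k)) * C (C (3 / 4 : k)))) -
          π * h * cV κ n * q) * e34
      · rw [hh, map_mul, hevπ] at hv
        have h1 : a * (ev (s ^ 3) (s * z) (q + C (C (3 / 4)) * h * cV κ n) +
            ev (s ^ 3) (s * z) (- (C (C (3 / 4)) * h)) * a) = 0 := by
          rw [map_add, map_mul, map_mul, map_neg, map_mul, hevc, hev34]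
          linear_combination hv - C (3 / 4 : k) * ev (s ^ 3) (s * z) h * hcurve +
            xx * ev (s ^ 3) (s * z) h * e34'
        exact (mul_eq_zero.1 h1).resolve_left ha
    · have hp : p = π * h - cV κ n * q := by linear_combination hh
      refine fin (- q) (C (C (3 / 4)) * h) ?_ ?_
      · rw [hN2, hN2, hp]
        linear_combination (-(π ^ 2 * h ^ 2 * (1 + C (C (4 / 3 : k)) * C (C (3 / 4 : k)))) +
          π * h * cV κ n * q) * e34
      · rw [hp, map_sub, map_mul, map_mul, hevπ, hevc] at hv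
        have h1 : (cc - a) * (ev (s ^ 3) (s * z) (- q) +
            ev (s ^ 3) (s * z) (C (C (3 / 4)) * h) * a) = 0 := by
          rw [map_mul, map_neg, hev34]
          linear_combination hv - C (3 / 4 : k) * ev (s ^ 3) (s * z) h * hcurve +
            xx * ev (s ^ 3) (s * z) h * e34'
        exact (mul_eq_zero.1 h1).resolve_left hca

end PF.Helper37
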